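import Pool.Agent.H37.DEN.TP

/-!
# Row NRM of the board DEN: normalization of an affine curve
-/

set_option autoImplicit false

open Polynomial
open Pool.Agent.H37.DEN

namespace Pool.Agent.H69.DEN

open scoped IntermediateField.algebraAdjoinAdjoin in
/-- the integral closure of `k[l]` in a finite extension of `k(l)` is finitely generated -/
theorem fg_closure (k F : Type) [Field k] [CharZero k] [Field F] [Algebra k F] (l : F)
    (hl : Transcendental k l) (hfin : FiniteDimensional (IntermediateField.adjoin k {l}) F) :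
    ((integralClosure (Algebra.adjoin k {l}) F).restrictScalars k).FG := by
  let φ : k[X] →+* Algebra.adjoin k {l} :=
    ((aeval l : k[X] →ₐ[k] F).codRestrict (Algebra.adjoin k {l})
      (fun p => Polynomial.aeval_mem_adjoin_singleton k l)).toRingHom
  have hφ : Function.Bijective φ := by
    constructor
    · intro p q hpq
      have h1 : aeval l p = aeval l q := congrArg Subtype.val hpq
      exact (transcendental_iff_injective.1 hl) h1
    · rintro ⟨z, hz⟩
      rw [Algebra.adjoin_singleton_eq_range_aeval] at hz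
      obtain ⟨p, hp⟩ := hz
      exact ⟨p, Subtype.ext hp⟩
  let e : k[X] ≃+* Algebra.adjoin k {l} := RingEquiv.ofBijective φ hφ
  haveI : IsIntegrallyClosed (Algebra.adjoin k {l}) := IsIntegrallyClosed.of_equiv e
  haveI : IsNoetherianRing (Algebra.adjoin k {l}) := isNoetherianRing_of_ringEquiv _ e
  haveI : CharZero (IntermediateField.adjoin k {l}) :=
    charZero_of_injective_algebraMap (algebraMap k (IntermediateField.adjoin k {l})).injective
  haveI : Algebra.IsSeparable (IntermediateField.adjoin k {l}) F := inferInstance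
  haveI h1 : Module.Finite (Algebra.adjoin k {l}) (integralClosure (Algebra.adjoin k {l}) F) :=
    IsIntegralClosure.finite (Algebra.adjoin k {l}) (IntermediateField.adjoin k {l}) F
      (integralClosure (Algebra.adjoin k {l}) F)
  haveI h2 : Algebra.FiniteType k (Algebra.adjoin k {l}) :=
    Algebra.FiniteType.adjoin_of_finite (Set.finite_singleton l)
  haveI h3 : Algebra.FiniteType (Algebra.adjoin k {l})
    (integralClosure (Algebra.adjoin k {l}) F) := Module.Finite.finiteType _
  have h4 : Algebra.FiniteType k (integralClosure (Algebra.adjoin k {l}) F) :=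
    Algebra.FiniteType.trans h2 h3
  rw [Subalgebra.fg_iff_finiteType]
  exact h4

/-- **Row NRM.** -/
theorem pf_NRM (hNOE : Pool.Agent.H55.FFM.T_NOE) : T_NRM := by
  intro k F _ _ _ _ _ R τ hcv hτ
  obtain ⟨l, hlR, hltr, hlfin, hint⟩ := hNOE k F R hcv
  let φ : k[X] →+* Algebra.adjoin k {l} :=
    ((aeval l : k[X] →ₐ[k] F).codRestrict (Algebra.adjoin k {l})
      (fun p => Polynomial.aeval_mem_adjoin_singleton k l)).toRingHom
  have hRint : ∀ r ∈ R, IsIntegral (Algebra.adjoin k {l}) r := by
    intro r hr
    obtain ⟨p, hp, hpr⟩ := hint r hr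
    refine ⟨p.map φ, hp.map φ, ?_⟩
    rw [eval₂_map]
    exact hpr
  have hAR : Algebra.adjoin k {l} ≤ R := by
    rw [Algebra.adjoin_le_iff, Set.singleton_subset_iff]
    exact hlR
  set R' : Subalgebra k F := (integralClosure (Algebra.adjoin k {l}) F).restrictScalars k with hR'
  have hmem : ∀ a : F, a ∈ R' ↔ IsIntegral (Algebra.adjoin k {l}) a := fun a => Iff.rfl
  have hRR' : R ≤ R' := fun r hr => (hmem r).2 (hRint r hr)
  have hclosed : ∀ a : F, IsIntegral R' a → a ∈ R' := by
    intro a ha
    rw [hmem]
    have h1 : IsIntegral (integralClosure (Algebra.adjoin k {l}) F) a := ha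
    exact isIntegral_trans a h1
  refine ⟨R', hRR', ?_, ?_, hclosed⟩
  · refine ⟨fg_closure k F l hltr hlfin, ?_, hcv.fin, hcv.tra⟩
    rw [eq_top_iff, ← hcv.top]
    exact IntermediateField.adjoin.mono k _ _ hRR'
  · intro r hr
    apply hclosed
    obtain ⟨p, hp, hpr⟩ := (hmem r).1 hr
    let ψ : Algebra.adjoin k {l} →+* R' :=
      { toFun := fun z => ⟨τ z, hRR' (hτ _ (hAR z.2))⟩
        map_one' := Subtype.ext (map_one τ)
        map_mul' := fun x y => Subtype.ext (map_mul τ _ _)
        map_zero' := Subtype.ext (map_zero τ)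
        map_add' := fun x y => Subtype.ext (map_add τ _ _) }
    refine ⟨p.map ψ, hp.map ψ, ?_⟩
    rw [eval₂_map]
    have h1 : (algebraMap R' F).comp ψ =
        (τ : F →+* F).comp (algebraMap (Algebra.adjoin k {l}) F) := by
      ext z; rfl
    rw [h1]
    have h2 := Polynomial.hom_eval₂ p (algebraMap (Algebra.adjoin k {l}) F) (τ : F →+* F) r
    rw [hpr, map_zero] at h2
    exact h2.symm

end Pool.Agent.H69.DEN
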