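import Pool.Agent.H37.DEN.Targets

/-!
# Row RBD of the board DEN: the Hilbert function of a curve over `k(g, h)`
-/

set_option autoImplicit false

open MvPolynomial
open Pool.Agent.H18.HIT
open Pool.Agent.H8.TD
open Pool.Agent.H37.DEN

namespace Pool.Agent.H69.DEN

theorem tb_xx' (k : Type) [Field k] : IsTranscendenceBasis k (xx k) :=
  haveI : Algebra.IsAlgebraic (Po 3 k) (K3 k) :=
    IsLocalization.isAlgebraic (K3 k) (nonZeroDivisors (Po 3 k))
  (IsTranscendenceBasis.mvPolynomial (Fin 3) k).algebraMap_comp (A := K3 k)

theorem trdeg_K3' (k : Type) [Field k] : Algebra.trdeg k (K3 k) = 3 := by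
  rw [← (tb_xx' k).cardinalMk_eq_trdeg]
  simp

theorem adjoin_xx' (k : Type) [Field k] : IntermediateField.adjoin k (Set.range (xx k)) = ⊤ := by
  rw [eq_top_iff]
  rintro x -
  obtain ⟨p, q, hq, rfl⟩ := IsFractionRing.div_surjective (A := Po 3 k) x
  have h : ∀ p : Po 3 k, algebraMap (Po 3 k) (K3 k) p ∈
      IntermediateField.adjoin k (Set.range (xx k)) := by
    intro p
    induction p using MvPolynomial.induction_on with
    | C a =>
      have h1 : algebraMap (Po 3 k) (K3 k) (C a) = algebraMap k (K3 k) a := by
        rw [IsScalarTower.algebraMap_apply k (Po 3 k) (K3 k)]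
        rfl
      rw [h1]
      exact IntermediateField.algebraMap_mem _ a
    | add p q hp hq =>
      rw [map_add]
      exact add_mem hp hq
    | mul_X p i hp =>
      rw [map_mul]
      exact mul_mem hp (IntermediateField.subset_adjoin k _ ⟨i, rfl⟩)
  exact div_mem (h p) (h q)

/-- the coordinates generate the field over every intermediate field -/
theorem top_xx (k : Type) [Field k] (E : Type) [Field E] [Algebra k E] [Algebra E (K3 k)]
    [IsScalarTower k E (K3 k)] : IntermediateField.adjoin E (Set.range (xx k)) = ⊤ := by
  rw [eq_top_iff]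
  intro x _
  have h10 : x ∈ IntermediateField.adjoin k (Set.range (xx k)) := by
    rw [adjoin_xx' k]; trivial
  have h11 : IntermediateField.adjoin k (Set.range (xx k)) ≤
      (IntermediateField.adjoin E (Set.range (xx k))).restrictScalars k := by
    rw [IntermediateField.adjoin_le_iff]
    exact IntermediateField.subset_adjoin _ _
  exact h11 h10

/-- finite dimension from algebraic coordinates -/
theorem fin_of_alg (k : Type) [Field k] (E : Type) [Field E] [Algebra k E] [Algebra E (K3 k)]
    [IsScalarTower k E (K3 k)] (h : ∀ i, IsAlgebraic E (xx k i)) :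
    FiniteDimensional E (K3 k) := by
  have h1 : FiniteDimensional E (IntermediateField.adjoin E (Set.range (xx k))) := by
    refine IntermediateField.finiteDimensional_adjoin fun x hx => ?_
    obtain ⟨i, rfl⟩ := hx
    exact (h i).isIntegral
  rw [top_xx k E] at h1
  exact LinearEquiv.finiteDimensional
    (IntermediateField.topEquiv (F := E) (E := K3 k)).toLinearEquiv

open scoped IntermediateField.algebraAdjoinAdjoin in
/-- the field of rational functions is not algebraic over `k(g, h)` -/
theorem not_fin (k : Type) [Field k] (g h : K3 k)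
    (hf : FiniteDimensional (IntermediateField.adjoin k ({g, h} : Set (K3 k))) (K3 k)) :
    False := by
  have h4 : Algebra.IsAlgebraic (IntermediateField.adjoin k ({g, h} : Set (K3 k))) (K3 k) :=
    inferInstance
  have h5 : Algebra.IsAlgebraic (Algebra.adjoin k ({g, h} : Set (K3 k))) (K3 k) :=
    (IsFractionRing.comap_isAlgebraic_iff (A := Algebra.adjoin k ({g, h} : Set (K3 k)))
      (K := IntermediateField.adjoin k ({g, h} : Set (K3 k))) (C := K3 k)).2 h4
  have h6 := Algebra.IsAlgebraic.trdeg_le_cardinalMk k ({g, h} : Set (K3 k))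
  rw [trdeg_K3' k] at h6
  have h7 : Cardinal.mk ({g, h} : Set (K3 k)) ≤ 2 := by
    refine (Cardinal.mk_insert_le (s := ({h} : Set (K3 k))) (a := g)).trans ?_
    rw [Cardinal.mk_singleton]
    norm_num
  have h8 := h6.trans h7
  norm_num at h8

/-- a coordinate which is transcendental over `k(g, h)` -/
theorem exists_tr (k : Type) [Field k] (g h : K3 k) :
    ∃ i, Transcendental (IntermediateField.adjoin k ({g, h} : Set (K3 k))) (xx k i) := by
  by_contra hc
  push Not at hc
  exact not_fin k g h (fin_of_alg k _ fun i => not_not.1 (hc i))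

/-- the field is finite over `k(g, h, y)` -/
theorem fin_y (k : Type) [Field k] (g h y : K3 k) (hgh : AlgebraicIndependent k ![g, h])
    (hy : Transcendental (IntermediateField.adjoin k ({g, h} : Set (K3 k))) y) :
    FiniteDimensional (IntermediateField.adjoin
      (IntermediateField.adjoin k ({g, h} : Set (K3 k))) ({y} : Set (K3 k))) (K3 k) := by
  have hr : Set.range ![g, h] = ({g, h} : Set (K3 k)) := by
    rw [Matrix.range_cons, Matrix.range_cons, Matrix.range_empty, Set.union_empty,
      Set.singleton_union]
  have h2 : Transcendental (Algebra.adjoin k (Set.range ![g, h])) y := by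
    intro hal
    apply hy
    have hle : Algebra.adjoin k (Set.range ![g, h]) ≤
        (IntermediateField.adjoin k ({g, h} : Set (K3 k))).toSubalgebra := by
      rw [hr]
      exact IntermediateField.algebra_adjoin_le_adjoin k _
    exact hal.ringHom_of_comp_eq (Subalgebra.inclusion hle).toRingHom (RingHom.id (K3 k))
      (Subalgebra.inclusion_injective hle) (by ext z; rfl)
  have h3 := (hgh.option_iff_transcendental y).2 h2
  have h4 : IsTranscendenceBasis k (fun o : Option (Fin 2) => o.elim y ![g, h]) := by
    apply h3.isTranscendenceBasis_of_trdeg_le_of_finite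
    rw [trdeg_K3' k]
    simp
  have h5 := h4.isAlgebraic_field
  haveI : IsScalarTower k (IntermediateField.adjoin
      (IntermediateField.adjoin k ({g, h} : Set (K3 k))) ({y} : Set (K3 k))) (K3 k) :=
    IsScalarTower.of_algebraMap_eq fun _ => rfl
  apply fin_of_alg k
  intro i
  have h6 : IsAlgebraic (IntermediateField.adjoin k
    (Set.range (fun o : Option (Fin 2) => o.elim y ![g, h]))) (xx k i) :=
      Algebra.IsAlgebraic.isAlgebraic _
  have hle : IntermediateField.adjoin k
      (Set.range (fun o : Option (Fin 2) => o.elim y ![g, h])) ≤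
      (IntermediateField.adjoin (IntermediateField.adjoin k ({g, h} : Set (K3 k)))
        ({y} : Set (K3 k))).restrictScalars k := by
    rw [IntermediateField.adjoin_le_iff]
    rintro x ⟨o, rfl⟩
    cases o with
    | none => exact IntermediateField.mem_adjoin_simple_self _ y
    | some j =>
      have hj : ![g, h] j ∈ IntermediateField.adjoin k ({g, h} : Set (K3 k)) := by
        apply IntermediateField.subset_adjoin
        rw [← hr]
        exact ⟨j, rfl⟩
      exact IntermediateField.algebraMap_mem
        (IntermediateField.adjoin (IntermediateField.adjoin k ({g, h} : Set (K3 k)))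
          ({y} : Set (K3 k))) ⟨![g, h] j, hj⟩
  exact h6.ringHom_of_comp_eq (IntermediateField.inclusion hle).toRingHom (RingHom.id (K3 k))
    (IntermediateField.inclusion_injective hle) (by ext z; rfl)

theorem fin_exp' (a n : ℕ) : {α : Fin a → ℕ | ∑ i, α i ≤ n}.Finite := by
  refine (Set.Finite.pi (fun _ : Fin a => Set.finite_Iic n)).subset ?_
  intro α hα i _
  exact (Finset.single_le_sum (fun j _ => Nat.zero_le (α j)) (Finset.mem_univ i)).trans hα

/-- the space of products is finite-dimensional -/
theorem Wsp_fin (κ : Type) {C : Type} [Field κ] [CommRing C] [Algebra κ C] {a b : ℕ}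
    (φ : Fin a → C) (ψ : Fin b → C) (n l : ℕ) : Module.Finite κ (Wsp κ φ ψ n l) := by
  refine Module.Finite.span_of_finite κ ?_
  refine (((fin_exp' a n).prod (fin_exp' b l)).image
    (fun p : (Fin a → ℕ) × (Fin b → ℕ) => (∏ i, φ i ^ p.1 i) * ∏ i, ψ i ^ p.2 i)).subset ?_
  rintro q ⟨α, β, hα, hβ, rfl⟩
  exact ⟨(α, β), ⟨hα, hβ⟩, rfl⟩

/-- polynomials of degree at most `a` are combinations of products -/
theorem mem_Wsp (k : Type) [Field k] (κ : IntermediateField k (K3 k)) (a : ℕ) (q : Po 3 k)
    (hq : q.totalDegree ≤ a) : ι q ∈ Wsp κ (fun i : Fin 0 => (i.elim0 : K3 k)) (xx k) 0 a := by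
  have h1 : ι q = ∑ m ∈ q.support, (algebraMap k κ (q.coeff m)) • ∏ i, xx k i ^ m i := by
    unfold ι
    conv_lhs => rw [q.as_sum]
    rw [map_sum]
    refine Finset.sum_congr rfl fun m _ => ?_
    rw [MvPolynomial.monomial_eq, map_mul, Finsupp.prod_fintype _ _ (fun i => pow_zero _),
      map_prod, Algebra.smul_def]
    congr 1
    refine Finset.prod_congr rfl fun i _ => ?_
    rw [map_pow]
    rfl
  rw [h1]
  refine Submodule.sum_mem _ fun m hm => Submodule.smul_mem _ _ (Submodule.subset_span ?_)
  refine ⟨fun _ => 0, fun i => m i, ?_, ?_, ?_⟩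
  · simp
  · have h2 := MvPolynomial.le_totalDegree hm
    rw [Finsupp.sum_fintype _ _ (fun _ => rfl)] at h2
    exact h2.trans hq
  · simp

/-- **Row RBD.** -/
theorem pf_RBD (hCLR : T_CLR) (hADJ : T_ADJ) : T_RBD := by
  intro k _ _ g h D hgh hD a
  obtain ⟨i, hi⟩ := exists_tr k g h
  haveI : CharZero (IntermediateField.adjoin k ({g, h} : Set (K3 k))) :=
    charZero_of_injective_algebraMap
      (algebraMap k (IntermediateField.adjoin k ({g, h} : Set (K3 k)))).injective
  have h1 := hCLR k (IntermediateField.adjoin k ({g, h} : Set (K3 k))) (K3 k) 0 3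
    (fun i : Fin 0 => (i.elim0 : K3 k)) (xx k) 0 D 0 a ⟨xx k i, fin_y k g h _ hgh hi⟩
    (by
      rw [Set.range_eq_empty, Set.empty_union]
      exact top_xx k _)
    (by
      intro s
      have h2 : lc s (fun i : Fin 0 => (i.elim0 : K3 k)) = 0 := by
        unfold lc
        simp
      rw [h2]
      by_contra hc
      rw [not_le] at hc
      have h3 : FiniteDimensional (IntermediateField.adjoin
          (IntermediateField.adjoin k ({g, h} : Set (K3 k))) ({0} : Set (K3 k))) (K3 k) :=
        Module.finite_of_finrank_pos hc
      have h4 : FiniteDimensional (IntermediateField.adjoin k ({g, h} : Set (K3 k)))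
          (IntermediateField.adjoin
          (IntermediateField.adjoin k ({g, h} : Set (K3 k))) ({0} : Set (K3 k))) :=
        IntermediateField.adjoin.finiteDimensional isIntegral_zero
      have h5 : FiniteDimensional (IntermediateField.adjoin k ({g, h} : Set (K3 k))) (K3 k) :=
        FiniteDimensional.trans _ (IntermediateField.adjoin
          (IntermediateField.adjoin k ({g, h} : Set (K3 k))) ({0} : Set (K3 k))) _
      exact not_fin k g h h5)
    (by
      intro s
      rw [hADJ k (K3 k) {g, h} (lc s (xx k))]
      exact hD s)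
    (by
      refine ⟨Pi.single i 1, ?_⟩
      have h2 : lc (Pi.single i (1 : k)) (xx k) = xx k i := by
        unfold lc
        rw [Finset.sum_eq_single i]
        · simp
        · intro j _ hj
          rw [Pi.single_eq_of_ne hj, zero_smul]
        · intro hn
          exact absurd (Finset.mem_univ i) hn
      rw [h2]
      exact hi)
  have h2 : Sp (IntermediateField.adjoin k ({g, h} : Set (K3 k))) a ≤
      Wsp (IntermediateField.adjoin k ({g, h} : Set (K3 k)))
        (fun i : Fin 0 => (i.elim0 : K3 k)) (xx k) 0 a := by
    unfold Sp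
    rw [Submodule.span_le]
    rintro x ⟨q, hq, rfl⟩
    exact mem_Wsp k _ a q hq
  haveI := Wsp_fin (IntermediateField.adjoin k ({g, h} : Set (K3 k)))
    (fun i : Fin 0 => (i.elim0 : K3 k)) (xx k) 0 a
  refine (Submodule.finrank_mono h2).trans (h1.trans (le_of_eq ?_))
  ring

end Pool.Agent.H69.DEN
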